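import Pool.Agent.Q192.TR.Tree

set_option autoImplicit false

namespace Q192.SGD

open Finset Q192.TR Q192.TR.RT

variable {t a b : RT}

/-- closed neighbourhood sum -/
noncomputable def cs (t : RT) (f : t.V → ℤ) (v : t.V) : ℤ := f v + nsum t.G f v

theorem cs_inl (f : (join a b).V → ℤ) (x : a.V) :
    cs (join a b) f (inl x) = cs a (fun z => f (inl z)) x + if x = a.root then f (inr b.root) else 0 := by
  unfold cs
  rw [nsum_join_inl, add_assoc]

theorem cs_inr (f : (join a b).V → ℤ) (y : b.V) :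
    cs (join a b) f (inr y) = cs b (fun z => f (inr z)) y + if y = b.root then f (inl a.root) else 0 := by
  unfold cs
  rw [nsum_join_inr, add_assoc]

theorem cs_root (f : (join a b).V → ℤ) :
    cs (join a b) f (join a b).root = cs a (fun z => f (inl z)) a.root + f (inr b.root) := by
  rw [join_root, cs_inl, if_pos rfl]

/-- the weight of a vertex with values `x`, `y` -/
def wt (x y : ℤ) : ℤ := if x = 1 ∧ y = -1 then 5 else if x = -1 ∧ y = 1 then -9 else -2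

def W (t : RT) (f g : t.V → ℤ) : ℤ := ∑ v, wt (f v) (g v)

theorem W_join (f g : (join a b).V → ℤ) : W (join a b) f g =
    W a (fun z => f (inl z)) (fun z => g (inl z)) + W b (fun z => f (inr z)) (fun z => g (inr z)) :=
  sum_join _

structure Part (t : RT) (f g : t.V → ℤ) (τ : Prop) : Prop where
  hf : ∀ v, f v = 1 ∨ f v = -1
  hg : ∀ v, g v = 1 ∨ g v = -1
  F1 : ∀ u, u ≠ t.root → 1 ≤ cs t f u
  G1 : ∀ u, u ≠ t.root → 1 ≤ cs t g u
  sat : ∀ u, u ≠ t.root → f u = 1 →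
    (∃ x, (x = u ∨ t.G.Adj u x) ∧ x ≠ t.root ∧ cs t f x ≤ 2) ∨ (τ ∧ t.G.Adj u t.root)

def TC (t : RT) (f : t.V → ℤ) : Prop := ∃ x, t.G.Adj t.root x ∧ cs t f x ≤ 2

structure Inv (t : RT) (f g : t.V → ℤ) (τ : Prop) : Prop where
  D : f t.root = -1 → g t.root = -1 → ∃ a b c d : ℕ, cs t f t.root = -1 + a + b - c - d ∧
    cs t g t.root = -1 + b + c - a - d ∧ W t f g ≤ -2 - 7 * a - 4 * b - 10 * c - 14 * d
  C : f t.root = -1 → g t.root = 1 → ∃ a b c d : ℕ, cs t f t.root = -1 + a + b - c - d ∧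
    cs t g t.root = 1 + b + c - a - d ∧ W t f g ≤ -9 + a - b - 8 * c - 14 * d
  A : f t.root = 1 → g t.root = -1 → ∃ a b0 b1 c d : ℕ,
    cs t f t.root = 1 + a + b0 + b1 - c - d ∧ cs t g t.root = -1 + b0 + b1 + c - a - d ∧
    W t f g ≤ 5 - 7 * a - 4 * b0 - 7 * b1 - 10 * c - 14 * d ∧ (TC t f → 1 ≤ a + b1 + c + d)
  B : f t.root = 1 → g t.root = 1 → ∃ a q b c d : ℕ,
    cs t f t.root = 1 + a + q + b - c - d ∧ cs t g t.root = 1 + b + c - a - q - d ∧
    W t f g ≤ -2 - 2 * a + q - 2 * b - 8 * c - 6 * d ∧ (¬ τ → q = 0)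

/-- what a child passes to its parent with values `p`, `p'` -/
structure Msg (b : RT) (f g : b.V → ℤ) (p p' : ℤ) (τ : Prop) : Prop where
  hf : f b.root = 1 ∨ f b.root = -1
  hg : g b.root = 1 ∨ g b.root = -1
  D : p = -1 → p' = -1 → (f b.root = 1 → g b.root = -1 → W b f g ≤ -7) ∧
    (f b.root = 1 → g b.root = 1 → W b f g ≤ -4) ∧ (f b.root = -1 → g b.root = 1 → W b f g ≤ -10) ∧
    (f b.root = -1 → g b.root = -1 → W b f g ≤ -14)
  C : p = -1 → p' = 1 → (f b.root = 1 → g b.root = -1 → W b f g ≤ 1) ∧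
    (f b.root = 1 → g b.root = 1 → W b f g ≤ -1) ∧ (f b.root = -1 → g b.root = 1 → W b f g ≤ -8) ∧
    (f b.root = -1 → g b.root = -1 → W b f g ≤ -14)
  A : p = 1 → p' = -1 → (f b.root = 1 → g b.root = -1 → W b f g ≤ -7) ∧
    (f b.root = 1 → g b.root = 1 → W b f g ≤ -4) ∧
    (f b.root = 1 → g b.root = 1 → cs b f b.root + p ≤ 2 → W b f g ≤ -7) ∧
    (f b.root = -1 → g b.root = 1 → W b f g ≤ -10) ∧
    (f b.root = -1 → g b.root = -1 → W b f g ≤ -14)
  B : p = 1 → p' = 1 → (f b.root = 1 → g b.root = -1 → W b f g ≤ -2 ∨ (τ ∧ W b f g ≤ 1)) ∧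
    (f b.root = 1 → g b.root = 1 → W b f g ≤ -2) ∧ (f b.root = -1 → g b.root = 1 → W b f g ≤ -8) ∧
    (f b.root = -1 → g b.root = -1 → W b f g ≤ -6)

theorem msg_of_inv {f g : b.V → ℤ} {p p' : ℤ} {τ : Prop}
    (h : Inv b f g (cs b f b.root + p ≤ 2)) (hf : f b.root = 1 ∨ f b.root = -1)
    (hg : g b.root = 1 ∨ g b.root = -1) (h1 : 1 ≤ cs b f b.root + p) (h2 : 1 ≤ cs b g b.root + p')
    (hs : f b.root = 1 → cs b f b.root + p ≤ 2 ∨ TC b f ∨ τ) : Msg b f g p p' τ := by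
  have hA : f b.root = 1 → g b.root = -1 → ∃ a b0 b1 c d : ℕ,
    cs b f b.root = 1 + a + b0 + b1 - c - d ∧ cs b g b.root = -1 + b0 + b1 + c - a - d ∧
    W b f g ≤ 5 - 7 * a - 4 * b0 - 7 * b1 - 10 * c - 14 * d ∧ (TC b f → 1 ≤ a + b1 + c + d) := h.A
  have hB := h.B
  have hC := h.C
  have hD := h.D
  refine ⟨hf, hg, fun e1 e2 => ⟨fun e3 e4 => ?_, fun e3 e4 => ?_, fun e3 e4 => ?_, fun e3 e4 => ?_⟩,
    fun e1 e2 => ⟨fun e3 e4 => ?_, fun e3 e4 => ?_, fun e3 e4 => ?_, fun e3 e4 => ?_⟩,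
    fun e1 e2 => ⟨fun e3 e4 => ?_, fun e3 e4 => ?_, fun e3 e4 e5 => ?_, fun e3 e4 => ?_,
      fun e3 e4 => ?_⟩,
    fun e1 e2 => ⟨fun e3 e4 => ?_, fun e3 e4 => ?_, fun e3 e4 => ?_, fun e3 e4 => ?_⟩⟩
  · obtain ⟨a, b0, b1, c, d, i1, i2, i3, -⟩ := hA e3 e4; omega
  · obtain ⟨a, q, b', c, d, i1, i2, i3, i4⟩ := hB e3 e4; omega
  · obtain ⟨a, b', c, d, i1, i2, i3⟩ := hC e3 e4; omega
  · obtain ⟨a, b', c, d, i1, i2, i3⟩ := hD e3 e4; omega
  · obtain ⟨a, b0, b1, c, d, i1, i2, i3, -⟩ := hA e3 e4; omega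
  · obtain ⟨a, q, b', c, d, i1, i2, i3, i4⟩ := hB e3 e4; omega
  · obtain ⟨a, b', c, d, i1, i2, i3⟩ := hC e3 e4; omega
  · obtain ⟨a, b', c, d, i1, i2, i3⟩ := hD e3 e4; omega
  · obtain ⟨a, b0, b1, c, d, i1, i2, i3, -⟩ := hA e3 e4; omega
  · obtain ⟨a, q, b', c, d, i1, i2, i3, i4⟩ := hB e3 e4; omega
  · obtain ⟨a, q, b', c, d, i1, i2, i3, i4⟩ := hB e3 e4; omega
  · obtain ⟨a, b', c, d, i1, i2, i3⟩ := hC e3 e4; omega
  · obtain ⟨a, b', c, d, i1, i2, i3⟩ := hD e3 e4; omega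
  · obtain ⟨a, b0, b1, c, d, i1, i2, i3, i4⟩ := hA e3 e4
    rcases hs e3 with h5 | h5 | h5
    · left; omega
    · left
      have := i4 h5
      omega
    · right
      refine ⟨h5, ?_⟩
      omega
  · obtain ⟨a, q, b', c, d, i1, i2, i3, i4⟩ := hB e3 e4; omega
  · obtain ⟨a, b', c, d, i1, i2, i3⟩ := hC e3 e4; omega
  · obtain ⟨a, b', c, d, i1, i2, i3⟩ := hD e3 e4; omega

theorem nbr_join {P : (join a b).V → Prop} (u : (join a b).V) (h : ∃ x, (join a b).G.Adj u x ∧ P x) :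
    (∃ u', u = inl u' ∧ ∃ x, a.G.Adj u' x ∧ P (inl x)) ∨
    (∃ u', u = inr u' ∧ ∃ x, b.G.Adj u' x ∧ P (inr x)) ∨
    (u = inl a.root ∧ P (inr b.root)) ∨ (u = inr b.root ∧ P (inl a.root)) := by
  obtain ⟨x, hx, hP⟩ := h
  match u, x, hx, hP with
  | Sum.inl u', Sum.inl x', hx, hP => exact Or.inl ⟨u', rfl, x', hx, hP⟩
  | Sum.inl u', Sum.inr x', hx, hP =>
    obtain ⟨rfl, rfl⟩ := hx
    exact Or.inr (Or.inr (Or.inl ⟨rfl, hP⟩))
  | Sum.inr u', Sum.inl x', hx, hP =>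
    obtain ⟨rfl, rfl⟩ := hx
    exact Or.inr (Or.inr (Or.inr ⟨rfl, hP⟩))
  | Sum.inr u', Sum.inr x', hx, hP => exact Or.inr (Or.inl ⟨u', rfl, x', hx, hP⟩)

theorem cs_inl_ne (f : (join a b).V → ℤ) {x : a.V} (hx : x ≠ a.root) :
    cs (join a b) f (inl x) = cs a (fun z => f (inl z)) x := by
  rw [cs_inl, if_neg hx, add_zero]

theorem cs_inr_ne (f : (join a b).V → ℤ) {x : b.V} (hx : x ≠ b.root) :
    cs (join a b) f (inr x) = cs b (fun z => f (inr z)) x := by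
  rw [cs_inr, if_neg hx, add_zero]

theorem cs_inr_root (f : (join a b).V → ℤ) :
    cs (join a b) f (inr b.root) = cs b (fun z => f (inr z)) b.root + f (inl a.root) := by
  rw [cs_inr, if_pos rfl]

section
variable {f g : (join a b).V → ℤ} {τ : Prop}

theorem Part.left (h : Part (join a b) f g τ) :
    Part a (fun z => f (inl z)) (fun z => g (inl z)) τ := by
  refine ⟨fun v => h.hf _, fun v => h.hg _, fun u hu => ?_, fun u hu => ?_, fun u hu h1 => ?_⟩
  · have := h.F1 (inl u) (fun e => hu ((inl_inj _ _).1 e))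
    rwa [cs_inl_ne f hu] at this
  · have := h.G1 (inl u) (fun e => hu ((inl_inj _ _).1 e))
    rwa [cs_inl_ne g hu] at this
  · have hu' : (inl u : (join a b).V) ≠ (join a b).root := fun e => hu ((inl_inj _ _).1 e)
    rcases h.sat (inl u) hu' h1 with ⟨x, hx, h3, h4⟩ | ⟨h2, h3⟩
    · rcases hx with rfl | hx
      · exact Or.inl ⟨u, Or.inl rfl, hu, by rwa [cs_inl_ne f hu] at h4⟩
      · rcases nbr_join (P := fun x => x ≠ (join a b).root ∧ cs (join a b) f x ≤ 2) (inl u)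
          ⟨x, hx, h3, h4⟩ with ⟨u', e, x', i1, i2, i3⟩ | ⟨u', e, _⟩ | ⟨e, _⟩ | ⟨e, _⟩
        · have e' := (inl_inj _ _).1 e
          subst e'
          have hx' : x' ≠ a.root := fun e => i2 (by rw [e]; rfl)
          exact Or.inl ⟨x', Or.inr i1, hx', by rwa [cs_inl_ne f hx'] at i3⟩
        · exact absurd e (inl_ne_inr _ _)
        · exact absurd ((inl_inj _ _).1 e) hu
        · exact absurd e (inl_ne_inr _ _)
    · exact Or.inr ⟨h2, h3⟩

theorem Part.right (h : Part (join a b) f g τ) :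
    Part b (fun z => f (inr z)) (fun z => g (inr z))
      (cs b (fun z => f (inr z)) b.root + f (inl a.root) ≤ 2) := by
  refine ⟨fun v => h.hf _, fun v => h.hg _, fun u hu => ?_, fun u hu => ?_, fun u hu h1 => ?_⟩
  · have := h.F1 (inr u) (inr_ne_inl _ _)
    rwa [cs_inr_ne f hu] at this
  · have := h.G1 (inr u) (inr_ne_inl _ _)
    rwa [cs_inr_ne g hu] at this
  · rcases h.sat (inr u) (inr_ne_inl _ _) h1 with ⟨x, hx, h3, h4⟩ | ⟨h2, h3⟩
    · rcases hx with rfl | hx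
      · exact Or.inl ⟨u, Or.inl rfl, hu, by rwa [cs_inr_ne f hu] at h4⟩
      · rcases nbr_join (P := fun x => x ≠ (join a b).root ∧ cs (join a b) f x ≤ 2) (inr u)
          ⟨x, hx, h3, h4⟩ with ⟨u', e, _⟩ | ⟨u', e, x', i1, i2, i3⟩ | ⟨e, _⟩ | ⟨e, _⟩
        · exact absurd e (inr_ne_inl _ _)
        · have e' := (inr_inj _ _).1 e
          subst e'
          by_cases hx' : x' = b.root
          · subst hx'
            rw [cs_inr_root] at i3
            exact Or.inr ⟨i3, i1⟩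
          · exact Or.inl ⟨x', Or.inr i1, hx', by rwa [cs_inr_ne f hx'] at i3⟩
        · exact absurd e (inr_ne_inl _ _)
        · exact absurd ((inr_inj _ _).1 e) hu
    · exact absurd ((join_inr_inl _ _).1 h3).2 hu

theorem Part.rootSat (h : Part (join a b) f g τ) (h1 : f (inr b.root) = 1) :
    cs b (fun z => f (inr z)) b.root + f (inl a.root) ≤ 2 ∨ TC b (fun z => f (inr z)) ∨ τ := by
  rcases h.sat (inr b.root) (inr_ne_inl _ _) h1 with ⟨x, hx, h3, h4⟩ | ⟨h2, h3⟩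
  · rcases hx with rfl | hx
    · left; rwa [cs_inr_root] at h4
    · rcases nbr_join (P := fun x => x ≠ (join a b).root ∧ cs (join a b) f x ≤ 2) (inr b.root)
        ⟨x, hx, h3, h4⟩ with ⟨u', e, _⟩ | ⟨u', e, x', i1, i2, i3⟩ | ⟨e, _⟩ | ⟨e, i2, i3⟩
      · exact absurd e (inr_ne_inl _ _)
      · have e' := (inr_inj _ _).1 e
        subst e'
        have hx' : x' ≠ b.root := fun e => b.G.ne_of_adj i1 e.symm
        right; left
        exact ⟨x', i1, by rwa [cs_inr_ne f hx'] at i3⟩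
      · exact absurd e (inr_ne_inl _ _)
      · exact absurd rfl i2
  · exact Or.inr (Or.inr h2)

theorem TC_join (h : TC (join a b) f) :
    TC a (fun z => f (inl z)) ∨ cs b (fun z => f (inr z)) b.root + f (inl a.root) ≤ 2 := by
  rcases nbr_join (P := fun x => cs (join a b) f x ≤ 2) (join a b).root h with
    ⟨u', e, x', i1, i3⟩ | ⟨u', e, _⟩ | ⟨e, i3⟩ | ⟨e, _⟩
  · have e' := (inl_inj _ _).1 e
    subst e'
    have hx' : x' ≠ a.root := fun e => a.G.ne_of_adj i1 e.symm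
    left
    exact ⟨x', i1, by rwa [cs_inl_ne f hx'] at i3⟩
  · exact absurd e (inl_ne_inr _ _)
  · right; rwa [cs_inr_root] at i3
  · exact absurd e (inl_ne_inr _ _)

theorem inv_join (ha : Inv a (fun z => f (inl z)) (fun z => g (inl z)) τ)
    (hm : Msg b (fun z => f (inr z)) (fun z => g (inr z)) (f (inl a.root)) (g (inl a.root)) τ) :
    Inv (join a b) f g τ := by
  obtain ⟨hf, hg, mD, mC, mA, mB⟩ := hm
  refine ⟨fun e1 e2 => ?_, fun e1 e2 => ?_, fun e1 e2 => ?_, fun e1 e2 => ?_⟩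
  · obtain ⟨n1, n2, n3, n4, i1, i2, i3⟩ := ha.D e1 e2
    obtain ⟨m1, m2, m3, m4⟩ := mD e1 e2
    rw [cs_root, cs_root, W_join, i1, i2]
    rcases hf with h1 | h1 <;> rcases hg with h2 | h2 <;> rw [h1, h2]
    · exact ⟨n1, n2 + 1, n3, n4, by omega, by omega, by have := m2 h1 h2; omega⟩
    · exact ⟨n1 + 1, n2, n3, n4, by omega, by omega, by have := m1 h1 h2; omega⟩
    · exact ⟨n1, n2, n3 + 1, n4, by omega, by omega, by have := m3 h1 h2; omega⟩
    · exact ⟨n1, n2, n3, n4 + 1, by omega, by omega, by have := m4 h1 h2; omega⟩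
  · obtain ⟨n1, n2, n3, n4, i1, i2, i3⟩ := ha.C e1 e2
    obtain ⟨m1, m2, m3, m4⟩ := mC e1 e2
    rw [cs_root, cs_root, W_join, i1, i2]
    rcases hf with h1 | h1 <;> rcases hg with h2 | h2 <;> rw [h1, h2]
    · exact ⟨n1, n2 + 1, n3, n4, by omega, by omega, by have := m2 h1 h2; omega⟩
    · exact ⟨n1 + 1, n2, n3, n4, by omega, by omega, by have := m1 h1 h2; omega⟩
    · exact ⟨n1, n2, n3 + 1, n4, by omega, by omega, by have := m3 h1 h2; omega⟩
    · exact ⟨n1, n2, n3, n4 + 1, by omega, by omega, by have := m4 h1 h2; omega⟩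
  · obtain ⟨n1, n2, n2', n3, n4, i1, i2, i3, i4⟩ := ha.A e1 e2
    obtain ⟨m1, m2, m2', m3, m4⟩ := mA e1 e2
    rw [cs_root, cs_root, W_join, i1, i2]
    rcases hf with h1 | h1 <;> rcases hg with h2 | h2 <;> rw [h1, h2]
    · by_cases ht : cs b (fun z => f (inr z)) b.root + f (inl a.root) ≤ 2
      · exact ⟨n1, n2, n2' + 1, n3, n4, by omega, by omega, by have := m2' h1 h2 ht; omega,
          fun _ => by omega⟩
      · refine ⟨n1, n2 + 1, n2', n3, n4, by omega, by omega, by have := m2 h1 h2; omega,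
          fun h => ?_⟩
        have := i4 ((TC_join h).resolve_right ht)
        omega
    · exact ⟨n1 + 1, n2, n2', n3, n4, by omega, by omega, by have := m1 h1 h2; omega,
        fun _ => by omega⟩
    · exact ⟨n1, n2, n2', n3 + 1, n4, by omega, by omega, by have := m3 h1 h2; omega,
        fun _ => by omega⟩
    · exact ⟨n1, n2, n2', n3, n4 + 1, by omega, by omega, by have := m4 h1 h2; omega,
        fun _ => by omega⟩
  · obtain ⟨n1, q, n2, n3, n4, i1, i2, i3, i4⟩ := ha.B e1 e2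
    obtain ⟨m1, m2, m3, m4⟩ := mB e1 e2
    rw [cs_root, cs_root, W_join, i1, i2]
    rcases hf with h1 | h1 <;> rcases hg with h2 | h2 <;> rw [h1, h2]
    · exact ⟨n1, q, n2 + 1, n3, n4, by omega, by omega, by have := m2 h1 h2; omega, i4⟩
    · rcases m1 h1 h2 with m | ⟨m, m'⟩
      · exact ⟨n1 + 1, q, n2, n3, n4, by omega, by omega, by omega, i4⟩
      · exact ⟨n1, q + 1, n2, n3, n4, by omega, by omega, by omega, fun h => absurd m h⟩
    · exact ⟨n1, q, n2, n3 + 1, n4, by omega, by omega, by have := m3 h1 h2; omega, i4⟩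
    · exact ⟨n1, q, n2, n3, n4 + 1, by omega, by omega, by have := m4 h1 h2; omega, i4⟩

end

theorem cs_leaf (f : leaf.V → ℤ) (v : leaf.V) : cs leaf f v = f leaf.root := by
  unfold cs
  rw [nsum_leaf, add_zero]
  rfl

theorem inv_all : ∀ (t : RT) (f g : t.V → ℤ) (τ : Prop), Part t f g τ → Inv t f g τ := by
  intro t
  induction t with
  | leaf =>
    intro f g τ _
    have hW : W leaf f g = wt (f leaf.root) (g leaf.root) := sum_leaf _
    refine ⟨fun e1 e2 => ⟨0, 0, 0, 0, ?_, ?_, ?_⟩, fun e1 e2 => ⟨0, 0, 0, 0, ?_, ?_, ?_⟩,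
      fun e1 e2 => ⟨0, 0, 0, 0, 0, ?_, ?_, ?_, ?_⟩, fun e1 e2 => ⟨0, 0, 0, 0, 0, ?_, ?_, ?_, ?_⟩⟩
    · rw [cs_leaf, e1]; rfl
    · rw [cs_leaf, e2]; rfl
    · rw [hW, e1, e2]; simp [wt]
    · rw [cs_leaf, e1]; rfl
    · rw [cs_leaf, e2]; rfl
    · rw [hW, e1, e2]; simp [wt]
    · rw [cs_leaf, e1]; rfl
    · rw [cs_leaf, e2]; rfl
    · rw [hW, e1, e2]; simp [wt]
    · rintro ⟨x, hx, _⟩; exact absurd hx (leaf_adj _ _)
    · rw [cs_leaf, e1]; rfl
    · rw [cs_leaf, e2]; rfl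
    · rw [hW, e1, e2]; simp [wt]
    · intro _; rfl
  | join a b iha ihb =>
    intro f g τ h
    refine inv_join (iha _ _ _ h.left) ?_
    refine msg_of_inv (ihb _ _ _ h.right) (h.hf _) (h.hg _) ?_ ?_ h.rootSat
    · have := h.F1 (inr b.root) (inr_ne_inl _ _)
      rwa [cs_inr_root] at this
    · have := h.G1 (inr b.root) (inr_ne_inl _ _)
      rwa [cs_inr_root] at this

/-- The final bound. -/
theorem W_le (t : RT) (f g : t.V → ℤ) (hf : ∀ v, f v = 1 ∨ f v = -1)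
    (hg : ∀ v, g v = 1 ∨ g v = -1) (F1 : ∀ v, 1 ≤ cs t f v) (G1 : ∀ v, 1 ≤ cs t g v)
    (hs : ∀ v, f v = 1 → ∃ x, (x = v ∨ t.G.Adj v x) ∧ cs t f x ≤ 2) : W t f g ≤ -2 := by
  have hp : Part t f g (cs t f t.root ≤ 2) := by
    refine ⟨hf, hg, fun u _ => F1 u, fun u _ => G1 u, fun u hu h1 => ?_⟩
    obtain ⟨x, hx, h2⟩ := hs u h1
    by_cases hxr : x = t.root
    · subst hxr
      rcases hx with hx | hx
      · exact absurd hx.symm hu
      · exact Or.inr ⟨h2, hx⟩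
    · exact Or.inl ⟨x, hx, hxr, h2⟩
  have hi := inv_all t f g _ hp
  have h1 := F1 t.root
  have h2 := G1 t.root
  rcases hf t.root with e1 | e1 <;> rcases hg t.root with e2 | e2
  · obtain ⟨a, q, b', c, d, i1, i2, i3, i4⟩ := hi.B e1 e2
    by_cases ht : cs t f t.root ≤ 2
    · omega
    · have := i4 ht
      omega
  · obtain ⟨a, b0, b1, c, d, i1, i2, i3, i4⟩ := hi.A e1 e2
    omega
  · obtain ⟨a, b', c, d, i1, i2, i3⟩ := hi.C e1 e2
    omega
  · obtain ⟨a, b', c, d, i1, i2, i3⟩ := hi.D e1 e2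
    omega

end Q192.SGD
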