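import Mathlib

set_option autoImplicit false

namespace Q192.SGD

open Finset

variable {V : Type*} [Fintype V]

open Classical in
/-- `f(N[v])`. -/
noncomputable def closedSum (G : SimpleGraph V) (f : V → ℤ) (v : V) : ℤ :=
  ∑ u ∈ univ.filter (fun u => u = v ∨ G.Adj v u), f u

/-- Signed dominating functions. -/
structure IsSDF (G : SimpleGraph V) (f : V → ℤ) : Prop where
  values : ∀ v, f v = 1 ∨ f v = -1
  dominating : ∀ v, 1 ≤ closedSum G f v

/-- Minimal signed dominating functions. -/
structure IsMinimalSDF (G : SimpleGraph V) (f : V → ℤ) : Prop where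
  sdf : IsSDF G f
  minimal : ∀ g, IsSDF G g → (∀ v, g v ≤ f v) → g = f

/-- The signed domination number. -/
noncomputable def signedDomination (G : SimpleGraph V) : ℤ :=
  sInf {w | ∃ f : V → ℤ, IsSDF G f ∧ w = ∑ v, f v}

/-- The upper signed domination number. -/
noncomputable def upperSignedDomination (G : SimpleGraph V) : ℤ :=
  sSup {w | ∃ f : V → ℤ, IsMinimalSDF G f ∧ w = ∑ v, f v}

end Q192.SGD
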