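import Pool.Agent.Q192.SGD.DP
import Pool.Agent.Q192.SGD.Defs

set_option autoImplicit false

namespace Q192.SGD

open Finset Q192.TR Q192.TR.RT

section
variable {V : Type*} [Fintype V] {G : SimpleGraph V}

theorem closedSum_eq (f : V → ℤ) (v : V) : closedSum G f v = f v + nsum G f v := by
  classical
  unfold closedSum
  rw [nsum_eq, Finset.sum_filter]
  have h : ∀ u, (if u = v ∨ G.Adj v u then f u else 0) =
      (if u = v then f u else 0) + if G.Adj v u then f u else 0 := by
    intro u
    by_cases h1 : u = v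
    · subst h1; simp
    · simp [h1]
  rw [Finset.sum_congr rfl fun u _ => h u, Finset.sum_add_distrib]
  simp

/-- In a minimal signed dominating function every vertex of value one has a tight vertex in its
closed neighbourhood. -/
theorem tight_of_minimal {f : V → ℤ} (hf : IsMinimalSDF G f) (v : V) (hv : f v = 1) :
    ∃ u, (u = v ∨ G.Adj v u) ∧ closedSum G f u ≤ 2 := by
  classical
  by_contra hcon
  push Not at hcon
  let g : V → ℤ := Function.update f v (-1)
  have hgv : ∀ u, g u = f u - if u = v then 2 else 0 := by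
    intro u
    by_cases h : u = v
    · subst h; simp [g, hv]
    · simp [g, h]
  have hsum : ∀ u, closedSum G g u = closedSum G f u - if (v = u ∨ G.Adj u v) then 2 else 0 := by
    intro u
    unfold closedSum
    rw [Finset.sum_congr rfl fun w _ => hgv w, Finset.sum_sub_distrib]
    congr 1
    rw [Finset.sum_ite_eq']
    simp
  have hg : IsSDF G g := by
    refine ⟨fun u => ?_, fun u => ?_⟩
    · by_cases h : u = v
      · subst h; simp [g]
      · simp only [g, Function.update_of_ne h]
        exact hf.sdf.values u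
    · rw [hsum]
      by_cases h : v = u ∨ G.Adj u v
      · rw [if_pos h]
        have h' : u = v ∨ G.Adj v u := by
          rcases h with h | h
          · exact Or.inl h.symm
          · exact Or.inr h.symm
        have := hcon u h'
        omega
      · rw [if_neg h]
        have := hf.sdf.dominating u
        omega
  have hle : ∀ u, g u ≤ f u := by
    intro u
    rw [hgv]
    split_ifs <;> omega
  have := hf.minimal g hg hle
  have h1 : g v = f v := by rw [this]
  rw [hgv, if_pos rfl] at h1
  omega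

theorem sdf_one : IsSDF G (fun _ => 1) := by
  refine ⟨fun _ => Or.inl rfl, fun v => ?_⟩
  classical
  unfold closedSum
  rw [Finset.sum_const, nsmul_eq_mul, mul_one]
  have : 0 < (univ.filter (fun u => u = v ∨ G.Adj v u)).card :=
    Finset.card_pos.2 ⟨v, by simp⟩
  exact_mod_cast this

theorem sum_bounds {f : V → ℤ} (hf : IsSDF G f) : -(Fintype.card V : ℤ) ≤ ∑ v, f v ∧
    ∑ v, f v ≤ Fintype.card V := by
  constructor
  · have : ∑ _v : V, (-1 : ℤ) ≤ ∑ v, f v := Finset.sum_le_sum fun v _ => by
      rcases hf.values v with h | h <;> omega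
    simpa using this
  · have : ∑ v, f v ≤ ∑ _v : V, (1 : ℤ) := Finset.sum_le_sum fun v _ => by
      rcases hf.values v with h | h <;> omega
    simpa using this

variable (G) in
theorem signed_attained : ∃ f : V → ℤ, IsMinimalSDF G f ∧ ∑ v, f v = signedDomination G := by
  have hne : {w | ∃ f : V → ℤ, IsSDF G f ∧ w = ∑ v, f v}.Nonempty := ⟨_, _, sdf_one, rfl⟩
  have hbdd : BddBelow {w | ∃ f : V → ℤ, IsSDF G f ∧ w = ∑ v, f v} :=
    ⟨-(Fintype.card V : ℤ), by rintro w ⟨f, hf, rfl⟩; exact (sum_bounds hf).1⟩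
  obtain ⟨f, hf, hw⟩ := Int.csInf_mem hne hbdd
  refine ⟨f, ⟨hf, fun g hg hle => ?_⟩, hw.symm⟩
  have h1 : signedDomination G ≤ ∑ v, g v := csInf_le hbdd ⟨g, hg, rfl⟩
  have h2 : ∑ v, f v ≤ ∑ v, g v := by
    have : signedDomination G = ∑ v, f v := hw
    omega
  by_contra hne'
  obtain ⟨v, hv⟩ := Function.ne_iff.1 hne'
  have : ∑ v, g v < ∑ v, f v :=
    Finset.sum_lt_sum (fun v _ => hle v) ⟨v, Finset.mem_univ v, lt_of_le_of_ne (hle v) hv⟩
  omega

variable (G) in
theorem upper_attained : ∃ f : V → ℤ, IsMinimalSDF G f ∧ ∑ v, f v = upperSignedDomination G := by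
  obtain ⟨f0, hf0, _⟩ := signed_attained G
  have hne : {w | ∃ f : V → ℤ, IsMinimalSDF G f ∧ w = ∑ v, f v}.Nonempty := ⟨_, f0, hf0, rfl⟩
  have hbdd : BddAbove {w | ∃ f : V → ℤ, IsMinimalSDF G f ∧ w = ∑ v, f v} :=
    ⟨(Fintype.card V : ℤ), by rintro w ⟨f, hf, rfl⟩; exact (sum_bounds hf.sdf).2⟩
  obtain ⟨f, hf, hw⟩ := Int.csSup_mem hne hbdd
  exact ⟨f, hf, hw.symm⟩

theorem two_wt {x y : ℤ} (hx : x = 1 ∨ x = -1) (hy : y = 1 ∨ y = -1) :
    2 * wt x y = 7 * (x - y) - 4 := by
  rcases hx with rfl | rfl <;> rcases hy with rfl | rfl <;> simp [wt]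

end

theorem compare {V : Type} [Fintype V] {G : SimpleGraph V} (hG : G.IsTree) {f g : V → ℤ}
    (hf : IsMinimalSDF G f) (hg : IsSDF G g) :
    7 * (∑ v, f v - ∑ v, g v) ≤ 4 * ((Fintype.card V : ℤ) - 1) := by
  obtain ⟨r⟩ := hG.1.nonempty
  obtain ⟨t, e, -⟩ := exists_iso hG r
  have hcs : ∀ (h : V → ℤ) (x : t.V), cs t (fun z => h (e.symm z)) x =
      closedSum G h (e.symm x) := by
    intro h x
    unfold cs
    rw [closedSum_eq]
    have := nsum_iso e (fun z => h (e.symm z)) (e.symm x)
    simp only [RelIso.symm_apply_apply, RelIso.apply_symm_apply] at this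
    rw [← this]
  have key := W_le t (fun z => f (e.symm z)) (fun z => g (e.symm z)) (fun v => hf.sdf.values _)
    (fun v => hg.values _) (fun v => by rw [hcs]; exact hf.sdf.dominating _)
    (fun v => by rw [hcs]; exact hg.dominating _) (fun v hv => by
      obtain ⟨u, hu, h2⟩ := tight_of_minimal hf (e.symm v) hv
      refine ⟨e u, ?_, ?_⟩
      · rcases hu with hu | hu
        · left; rw [hu]; simp
        · right
          have := e.map_adj_iff.2 hu
          simpa using this
      · rw [hcs]; simpa using h2)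
  have h1 : W t (fun z => f (e.symm z)) (fun z => g (e.symm z)) = ∑ v, wt (f v) (g v) := by
    unfold W
    refine (Fintype.sum_equiv e.toEquiv _ _ fun v => ?_).symm
    change wt (f v) (g v) = wt (f (e.symm (e v))) (g (e.symm (e v)))
    simp
  rw [h1] at key
  have h2 : 2 * ∑ v, wt (f v) (g v) = 7 * (∑ v, f v - ∑ v, g v) - 4 * Fintype.card V := by
    rw [Finset.mul_sum, Finset.sum_congr rfl fun v _ => two_wt (hf.sdf.values v) (hg.values v),
      Finset.sum_sub_distrib, ← Finset.mul_sum, Finset.sum_sub_distrib]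
    simp [mul_comm]
  omega

theorem main {V : Type} [Fintype V] {G : SimpleGraph V} (hG : G.IsTree) :
    7 * (upperSignedDomination G - signedDomination G) ≤ 4 * ((Fintype.card V : ℤ) - 1) := by
  obtain ⟨f, hf, h1⟩ := upper_attained G
  obtain ⟨g, hg, h2⟩ := signed_attained G
  rw [← h1, ← h2]
  exact compare hG hf hg.sdf

end Q192.SGD
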